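import Pool.Agent.Q290.Charged.Fekete
import Pool.Agent.Q290.Charged.Walk

/-!
# The annealed free energy of the charged polymer exists in every dimension `d ≥ 2`

`Charged.Step`, `Charged.stepVec`, `Charged.position`, `Charged.localTime` (the walk and its local
times `ℓ_n(x)`) are defined in `Pool.Agent.Q290.Charged.Walk`.
-/

namespace Pool.Agent.Results.MP_8e4414_pr.FreeEnergyExists

open MeasureTheory ProbabilityTheory Filter Topology
open Pool.Agent.Q290

/-- An admissible charge law: a probability law on `ℝ` with all exponential moments, mean zero and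
variance one. -/
structure Admissible (P : Measure ℝ) : Prop where
  prob : IsProbabilityMeasure P
  exp : ∀ t : ℝ, Integrable (fun x => Real.exp (t * x)) P
  mean : ∫ x, x ∂P = 0
  var : ∫ x, x ^ 2 ∂P = 1

/-- The tilted marginal `e^{δ x} P(dx) / M(δ)`. -/
noncomputable def tilt (P : Measure ℝ) (δ : ℝ) : Measure ℝ := P.tilted fun x => δ * x

/-- `g_{δ,β}(ℓ) = E^δ [exp (- β Ω_ℓ ^ 2)]`, `Ω_ℓ` the sum of `ℓ` independent charges. -/
noncomputable def g (P : Measure ℝ) (δ β : ℝ) (l : ℕ) : ℝ :=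
  ∫ ω : Fin l → ℝ, Real.exp (-β * (∑ i, ω i) ^ 2) ∂(Measure.pi fun _ => tilt P δ)

/-- The annealed partition function `Z_n = E [∏_x g (ℓ_n(x))]`: the mean over the `(2 d) ^ n`
walks with `n` steps. -/
noncomputable def Z (P : Measure ℝ) (d : ℕ) (δ β : ℝ) (n : ℕ) : ℝ :=
  (∑ w : Fin n → Charged.Step d, ∏ᶠ x : Fin d → ℤ, g P δ β (Charged.localTime w x)) /
    (2 * d : ℝ) ^ n

lemma tilt_prob {P : Measure ℝ} (hP : Admissible P) (δ : ℝ) : IsProbabilityMeasure (tilt P δ) := by
  have := hP.prob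
  exact isProbabilityMeasure_tilted (hP.exp δ)

lemma g_zero {P : Measure ℝ} (hP : Admissible P) (δ β : ℝ) : g P δ β 0 = 1 := by
  have := tilt_prob hP δ
  unfold g
  simp

lemma g_le_one {P : Measure ℝ} (hP : Admissible P) (δ : ℝ) {β : ℝ} (hβ : 0 < β) (l : ℕ) :
    g P δ β l ≤ 1 := by
  have := tilt_prob hP δ
  unfold g
  have h1 : ∀ ω : Fin l → ℝ, Real.exp (-β * (∑ i, ω i) ^ 2) ≤ 1 := by
    intro ω
    rw [Real.exp_le_one_iff]
    have := mul_nonneg hβ.le (sq_nonneg (∑ i, ω i))
    linarith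
  have h2 : ∫ ω : Fin l → ℝ, Real.exp (-β * (∑ i, ω i) ^ 2) ∂(Measure.pi fun _ => tilt P δ) ≤
      ∫ _ω : Fin l → ℝ, (1 : ℝ) ∂(Measure.pi fun _ => tilt P δ) := by
    apply integral_mono_of_nonneg
    · exact Eventually.of_forall fun ω => (Real.exp_pos _).le
    · exact integrable_const _
    · exact Eventually.of_forall h1
  simpa using h2

lemma integrable_gauss {ν : Measure ℝ} [IsProbabilityMeasure ν] {β : ℝ} (hβ : 0 < β) (u : ℝ) :
    Integrable (fun x => Real.exp (-β * (x + u) ^ 2)) ν := by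
  apply Integrable.mono' (integrable_const (1 : ℝ))
  · exact (by fun_prop : Continuous fun x : ℝ => Real.exp (-β * (x + u) ^ 2)).aestronglyMeasurable
  · refine Eventually.of_forall fun x => ?_
    rw [Real.norm_eq_abs, abs_of_pos (Real.exp_pos _), Real.exp_le_one_iff]
    have := mul_nonneg hβ.le (sq_nonneg (x + u))
    linarith

/-- the constant `c` for one sign -/
noncomputable def cc (ν : Measure ℝ) (β : ℝ) (s : Set ℝ) : ℝ := ∫ x in s, Real.exp (-β * x ^ 2) ∂ν

lemma cc_pos {ν : Measure ℝ} [IsProbabilityMeasure ν] {β : ℝ} (hβ : 0 < β) {s : Set ℝ}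
    (h : ν s ≠ 0) : 0 < cc ν β s := by
  unfold cc
  have hint : Integrable (fun x => Real.exp (-β * x ^ 2)) ν := by
    simpa using integrable_gauss (ν := ν) hβ 0
  rw [setIntegral_pos_iff_support_of_nonneg_ae (Eventually.of_forall fun x => (Real.exp_pos _).le)
    hint.integrableOn]
  have h1 : (Function.support fun x => Real.exp (-β * x ^ 2)) ∩ s = s := by
    apply Set.inter_eq_right.mpr
    intro x _
    exact (Real.exp_pos _).ne'
  rw [h1]
  exact pos_iff_ne_zero.mpr h

lemma cc_le {ν : Measure ℝ} [IsProbabilityMeasure ν] {β : ℝ} (hβ : 0 < β) {s : Set ℝ}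
    (hs : MeasurableSet s) (u : ℝ) (h : ∀ x ∈ s, x * u ≤ 0) :
    cc ν β s * Real.exp (-β * u ^ 2) ≤ ∫ x, Real.exp (-β * (x + u) ^ 2) ∂ν := by
  unfold cc
  have hint : Integrable (fun x => Real.exp (-β * x ^ 2)) ν := by
    simpa using integrable_gauss (ν := ν) hβ 0
  rw [← integral_mul_const]
  refine le_trans (setIntegral_mono_on (hint.integrableOn.mul_const _)
    (integrable_gauss hβ u).integrableOn hs ?_)
    (setIntegral_le_integral (integrable_gauss hβ u)
      (Eventually.of_forall fun x => (Real.exp_pos _).le))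
  intro x hx
  rw [← Real.exp_add]
  apply Real.exp_le_exp.mpr
  have h1 := h x hx
  nlinarith

lemma cc_le_one {ν : Measure ℝ} [IsProbabilityMeasure ν] {β : ℝ} (hβ : 0 < β) {s : Set ℝ} :
    cc ν β s ≤ 1 := by
  unfold cc
  have hint : Integrable (fun x => Real.exp (-β * x ^ 2)) ν := by
    simpa using integrable_gauss (ν := ν) hβ 0
  refine le_trans (setIntegral_le_integral hint
      (Eventually.of_forall fun x => (Real.exp_pos _).le)) ?_
  have h2 : ∫ x, Real.exp (-β * x ^ 2) ∂ν ≤ ∫ _x : ℝ, (1 : ℝ) ∂ν := by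
    apply integral_mono hint (integrable_const _)
    intro x
    simp only
    rw [Real.exp_le_one_iff]
    have := mul_nonneg hβ.le (sq_nonneg x)
    linarith
  simpa using h2

lemma charge_signs {P : Measure ℝ} (hP : Admissible P) (δ : ℝ) :
    tilt P δ (Set.Iic 0) ≠ 0 ∧ tilt P δ (Set.Ici 0) ≠ 0 := by
  have := hP.prob
  have hac : P ≪ tilt P δ := absolutelyContinuous_tilted (hP.exp δ)
  have hint : Integrable (fun x : ℝ => x) P := by
    by_contra h
    have h2 : ¬ Integrable (fun x : ℝ => x ^ 2) P := by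
      intro h3
      apply h
      have h4 : MemLp (fun x : ℝ => x) 2 P := by
        exact (memLp_two_iff_integrable_sq
          (f := fun x : ℝ => x) measurable_id.aestronglyMeasurable).mpr h3
      exact h4.integrable (by norm_num)
    have h5 := hP.var
    rw [integral_undef h2] at h5
    norm_num at h5
  constructor
  · intro h
    have h1 : P (Set.Iic 0) = 0 := hac h
    have h2 : ∀ᵐ x ∂P, 0 < x := by
      rw [ae_iff]
      have : {a : ℝ | ¬ 0 < a} = Set.Iic 0 := by ext x; simp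
      rw [this]; exact h1
    have h3 : 0 < ∫ x, x ∂P := by
      rw [integral_pos_iff_support_of_nonneg_ae (h2.mono fun x hx => hx.le) hint]
      have h4 : (Function.support fun x : ℝ => x) =ᵐ[P] Set.univ := by
        rw [ae_eq_univ]
        refine measure_mono_null ?_ h1
        intro x hx
        simp at hx
        simp [hx]
      rw [measure_congr h4]
      simp
    rw [hP.mean] at h3
    exact lt_irrefl _ h3
  · intro h
    have h1 : P (Set.Ici 0) = 0 := hac h
    have h2 : ∀ᵐ x ∂P, x < 0 := by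
      rw [ae_iff]
      have : {a : ℝ | ¬ a < 0} = Set.Ici 0 := by ext x; simp
      rw [this]; exact h1
    have h3 : 0 < ∫ x, -x ∂P := by
      rw [integral_pos_iff_support_of_nonneg_ae (f := fun x : ℝ => -x) (h2.mono fun x hx => by
        change (0 : ℝ) ≤ -x
        linarith) hint.neg]
      have h4 : (Function.support fun x : ℝ => -x) =ᵐ[P] Set.univ := by
        rw [ae_eq_univ]
        refine measure_mono_null ?_ h1
        intro x hx
        simp at hx
        simp [hx]
      rw [measure_congr h4]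
      simp
    rw [integral_neg, hP.mean] at h3
    norm_num at h3

lemma good {P : Measure ℝ} (hP : Admissible P) (δ : ℝ) {β : ℝ} (hβ : 0 < β) :
    ∃ c : ℝ, Charged.Good (g P δ β) c := by
  have := tilt_prob hP δ
  set ν := tilt P δ with hν
  obtain ⟨h1, h2⟩ := charge_signs hP δ
  set c := min (cc ν β (Set.Iic 0)) (cc ν β (Set.Ici 0)) with hc
  have hc1 : 0 < c := lt_min (cc_pos hβ h1) (cc_pos hβ h2)
  have hc2 : c ≤ 1 := le_trans (min_le_left _ _) (cc_le_one hβ)
  refine ⟨c, g_zero hP δ β, g_le_one hP δ hβ, ?_, hc1, hc2⟩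
  have hin : ∀ u : ℝ, c * Real.exp (-β * u ^ 2) ≤ ∫ x, Real.exp (-β * (x + u) ^ 2) ∂ν := by
    intro u
    rcases le_total 0 u with hu | hu
    · refine le_trans (mul_le_mul_of_nonneg_right (min_le_left _ _) (Real.exp_pos _).le)
        (cc_le hβ measurableSet_Iic u ?_)
      intro x hx
      exact mul_nonpos_of_nonpos_of_nonneg hx hu
    · refine le_trans (mul_le_mul_of_nonneg_right (min_le_right _ _) (Real.exp_pos _).le)
        (cc_le hβ measurableSet_Ici u ?_)
      intro x hx
      exact mul_nonpos_of_nonneg_of_nonpos hx hu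
  intro l
  unfold g
  have hmp := measurePreserving_piFinSuccAbove (fun _ : Fin (l + 1) => ν) 0
  have h3 : ∫ ω : Fin (l + 1) → ℝ, Real.exp (-β * (∑ i, ω i) ^ 2) ∂(Measure.pi fun _ => ν) =
      ∫ z : ℝ × (Fin l → ℝ), Real.exp (-β * (z.1 + ∑ i, z.2 i) ^ 2)
        ∂(ν.prod (Measure.pi fun _ => ν)) := by
    rw [← hmp.integral_comp (MeasurableEquiv.measurableEmbedding _)]
    apply integral_congr_ae
    refine Eventually.of_forall fun ω => ?_
    simp only [MeasurableEquiv.piFinSuccAbove_apply]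
    congr 2
    rw [Fin.sum_univ_succAbove _ 0]
    rfl
  have hint : Integrable (fun z : ℝ × (Fin l → ℝ) => Real.exp (-β * (z.1 + ∑ i, z.2 i) ^ 2))
      (ν.prod (Measure.pi fun _ => ν)) := by
    apply Integrable.mono' (integrable_const (1 : ℝ))
    · exact (by fun_prop : Continuous fun z : ℝ × (Fin l → ℝ) =>
        Real.exp (-β * (z.1 + ∑ i, z.2 i) ^ 2)).aestronglyMeasurable
    · refine Eventually.of_forall fun z => ?_
      rw [Real.norm_eq_abs, abs_of_pos (Real.exp_pos _), Real.exp_le_one_iff]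
      have := mul_nonneg hβ.le (sq_nonneg (z.1 + ∑ i, z.2 i))
      linarith
  rw [← hν, h3, integral_prod_symm _ hint, ← integral_const_mul]
  apply integral_mono_of_nonneg
  · exact Eventually.of_forall fun ω => mul_nonneg hc1.le (Real.exp_pos _).le
  · exact hint.integral_prod_right
  · exact Eventually.of_forall fun ω => hin _

/-- **The annealed free energy of the charged polymer exists**: for every `d ≥ 2`, every admissible
charge law and all `δ ≥ 0`, `β > 0` the limit of `(1/n) log Z_n` exists. -/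
theorem result (d : ℕ) (hd : 2 ≤ d) (P : Measure ℝ) (hP : Admissible P) (δ β : ℝ) (_hδ : 0 ≤ δ)
    (hβ : 0 < β) :
    ∃ F : ℝ, Tendsto (fun n : ℕ => (1 / (n : ℝ)) * Real.log (Z P d δ β n)) atTop (𝓝 F) := by
  obtain ⟨c, hg⟩ := good hP δ hβ
  have hZ : ∀ n, Z P d δ β n = Charged.Y (g P δ β) d n / (2 * d : ℝ) ^ n := by
    intro n
    unfold Z Charged.Y
    congr 1
    exact Finset.sum_congr rfl fun w _ => Charged.finprod_localTime hg w
  have hd0 : (0 : ℝ) < 2 * d := by
    have : (0 : ℝ) < d := by exact_mod_cast (by omega : 0 < d)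
    linarith
  have hZlow : ∀ n, c ^ n ≤ Z P d δ β n := by
    intro n
    rw [hZ, le_div_iff₀ (pow_pos hd0 n)]
    exact Charged.le_Y hg n
  have hZup : ∀ n, Z P d δ β n ≤ 1 := by
    intro n
    rw [hZ, div_le_one (pow_pos hd0 n)]
    exact Charged.Y_le hg n
  have hZpos : ∀ n, 0 < Z P d δ β n := fun n => lt_of_lt_of_le (pow_pos hg.cpos n) (hZlow n)
  set a : ℕ → ℝ := fun n => Real.log (Z P d δ β n) with ha
  have hlc : Real.log c ≤ 0 := Real.log_nonpos hg.cpos.le hg.cle
  have hl2 : 0 ≤ Real.log (2 * d) := by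
    apply Real.log_nonneg
    have : (2 : ℝ) ≤ d := by exact_mod_cast hd
    linarith
  have hlin : ∀ n, |a n| ≤ (-Real.log c) * n := by
    intro n
    have h1 : a n ≤ 0 := Real.log_nonpos (hZpos n).le (hZup n)
    have h2 : n * Real.log c ≤ a n := by
      rw [← Real.log_pow]
      exact Real.log_le_log (pow_pos hg.cpos n) (hZlow n)
    rw [abs_of_nonpos h1]
    linarith
  have hsup : ∀ n m K : ℕ, 1 ≤ K →
      a n + a m - (4 * (-Real.log c) + 4 * Real.log (2 * d)) *
        (K + (n : ℝ) * m / (K : ℝ) ^ 2) ≤ a (n + 4 * K + m) := by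
    intro n m K hK
    have h1 := Charged.Y_join hg hd n m K hK
    have hYn : Charged.Y (g P δ β) d n = Z P d δ β n * (2 * d : ℝ) ^ n := by
      rw [hZ, div_mul_cancel₀ _ (pow_pos hd0 n).ne']
    have hYm : Charged.Y (g P δ β) d m = Z P d δ β m * (2 * d : ℝ) ^ m := by
      rw [hZ, div_mul_cancel₀ _ (pow_pos hd0 m).ne']
    have hYs : Charged.Y (g P δ β) d (n + 4 * K + m) =
        Z P d δ β (n + 4 * K + m) * (2 * d : ℝ) ^ (n + 4 * K + m) := by
      rw [hZ, div_mul_cancel₀ _ (pow_pos hd0 _).ne']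
    rw [hYn, hYm, hYs] at h1
    have h2 : c ^ (4 * K + n * m / K ^ 2) * (Z P d δ β n * Z P d δ β m) ≤
        Z P d δ β (n + 4 * K + m) * (2 * d : ℝ) ^ (4 * K) := by
      have h3 : 0 < (2 * d : ℝ) ^ n * (2 * d : ℝ) ^ m := mul_pos (pow_pos hd0 n) (pow_pos hd0 m)
      have h4 : c ^ (4 * K + n * m / K ^ 2) * (Z P d δ β n * Z P d δ β m) *
          ((2 * d : ℝ) ^ n * (2 * d : ℝ) ^ m) ≤
          Z P d δ β (n + 4 * K + m) * (2 * d : ℝ) ^ (4 * K) *
          ((2 * d : ℝ) ^ n * (2 * d : ℝ) ^ m) := by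
        calc _ = c ^ (4 * K + n * m / K ^ 2) *
              (Z P d δ β n * (2 * d : ℝ) ^ n * (Z P d δ β m * (2 * d : ℝ) ^ m)) := by ring
          _ ≤ _ := h1
          _ = _ := by rw [pow_add, pow_add]; ring
      exact le_of_mul_le_mul_right h4 h3
    have h5 := Real.log_le_log (mul_pos (pow_pos hg.cpos _) (mul_pos (hZpos n) (hZpos m))) h2
    rw [Real.log_mul (pow_pos hg.cpos _).ne' (mul_pos (hZpos n) (hZpos m)).ne',
      Real.log_mul (hZpos n).ne' (hZpos m).ne', Real.log_mul (hZpos _).ne' (pow_pos hd0 _).ne',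
      Real.log_pow, Real.log_pow] at h5
    have h6 : ((4 * K + n * m / K ^ 2 : ℕ) : ℝ) ≤ 4 * K + (n : ℝ) * m / (K : ℝ) ^ 2 := by
      push_cast
      have : ((n * m / K ^ 2 : ℕ) : ℝ) ≤ ((n * m : ℕ) : ℝ) / ((K ^ 2 : ℕ) : ℝ) := Nat.cast_div_le
      push_cast at this
      linarith
    have h7 : (4 * K + (n : ℝ) * m / (K : ℝ) ^ 2) * Real.log c ≤
        ((4 * K + n * m / K ^ 2 : ℕ) : ℝ) * Real.log c := mul_le_mul_of_nonpos_right h6 hlc
    have h8 : 0 ≤ (n : ℝ) * m / (K : ℝ) ^ 2 := by positivity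
    have h9 : 0 ≤ (n : ℝ) * m / (K : ℝ) ^ 2 * Real.log (2 * d) := mul_nonneg h8 hl2
    have h10 : (n : ℝ) * m / (K : ℝ) ^ 2 * Real.log c ≤ 0 := mul_nonpos_of_nonneg_of_nonpos h8 hlc
    simp only [ha]
    push_cast at h5 h7 ⊢
    nlinarith
  obtain ⟨F, hF⟩ := Charged.tendsto_of_super (a := a) (by linarith) (by linarith) hlin hsup
  refine ⟨F, ?_⟩
  refine hF.congr fun n => ?_
  rw [ha]
  ring

end Pool.Agent.Results.MP_8e4414_pr.FreeEnergyExists
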